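import Pool.Agent.Y966.NQ.Upper
import Pool.Agent.H377R2.NK.CountUp

/-!
Coalescence of the trajectories of the maps `x / 2`, `(p x + 1) / 2`, `p = 3, 5`: basic facts, for any
odd `p`.
-/

set_option autoImplicit false
set_option linter.unusedVariables false

namespace Pool.Agent.Y966.CC

open Finset Pool.Agent.H320R2.PD Pool.Agent.H377R2.NK

/-- the map `x / 2`, `(p x + 1) / 2` on the integers -/
def TP (p : ℕ) (m : ℤ) : ℤ := if m % 2 = 0 then m / 2 else ((p : ℤ) * m + 1) / 2

/-- number of odd terms among the first `k` terms of the trajectory -/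
def oP (p k : ℕ) (n : ℤ) : ℕ := ((range k).filter fun i => (TP p)^[i] n % 2 = 1).card

variable {p : ℕ}

theorem oP_zero (n : ℤ) : oP p 0 n = 0 := by simp [oP]

theorem oP_succ (k : ℕ) (n : ℤ) :
    oP p (k + 1) n = oP p k n + if (TP p)^[k] n % 2 = 1 then 1 else 0 := by
  unfold oP
  rw [range_add_one, filter_insert]
  split_ifs with h
  · rw [card_insert_of_notMem (by simp)]
  · rfl

theorem oP_le (k : ℕ) (n : ℤ) : oP p k n ≤ k := by
  unfold oP
  calc _ ≤ (range k).card := card_filter_le _ _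
    _ = k := card_range k

/-- translation by multiples of `2 ^ k` -/
theorem TP_add (hp : Odd p) (k : ℕ) : ∀ (n s : ℤ),
    (TP p)^[k] (n + 2 ^ k * s) = (TP p)^[k] n + (p : ℤ) ^ (oP p k n) * s ∧
      oP p k (n + 2 ^ k * s) = oP p k n := by
  obtain ⟨r, hr⟩ := hp
  have hpz : (p : ℤ) = 2 * r + 1 := by exact_mod_cast hr
  induction k with
  | zero =>
    intro n s
    simp [oP_zero]
  | succ k ih =>
    intro n s
    have e1 : n + 2 ^ (k + 1) * s = n + 2 ^ k * (2 * s) := by ring
    obtain ⟨h1, h2⟩ := ih n (2 * s)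
    set y : ℤ := (TP p)^[k] n with hy
    set P : ℤ := (p : ℤ) ^ (oP p k n) with hP
    have e2 : y + P * (2 * s) = y + 2 * (P * s) := by ring
    have hmod : (y + 2 * (P * s)) % 2 = y % 2 := by omega
    rw [e1, Function.iterate_succ_apply', Function.iterate_succ_apply', oP_succ, oP_succ, h1, h2,
      ← hy, e2]
    constructor
    · unfold TP
      rw [hmod]
      by_cases h : y % 2 = 0
      · rw [if_pos h, if_pos h, if_neg (by omega), add_zero, ← hP]
        omega
      · rw [if_neg h, if_neg h, if_pos (by omega), pow_succ, ← hP]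
        obtain ⟨c, hc⟩ : ∃ c : ℤ, y = 2 * c + 1 := ⟨y / 2, by omega⟩
        have h3 : (p : ℤ) * (y + 2 * (P * s)) + 1 = 2 * ((p : ℤ) * c + r + 1 + P * (p : ℤ) * s) := by
          rw [hc, hpz]
          ring
        have h4 : (p : ℤ) * y + 1 = 2 * ((p : ℤ) * c + r + 1) := by
          rw [hc, hpz]
          ring
        rw [h3, h4, Int.mul_ediv_cancel_left _ (by norm_num), Int.mul_ediv_cancel_left _ (by norm_num)]
    · rw [hmod]

theorem TP_pos (hp : Odd p) {n : ℤ} (hn : 1 ≤ n) : 1 ≤ TP p n := by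
  obtain ⟨r, hr⟩ := hp
  have hpz : (p : ℤ) = 2 * r + 1 := by exact_mod_cast hr
  have hr0 : (0 : ℤ) ≤ r := by positivity
  unfold TP
  split_ifs with h
  · omega
  · have : 1 * 1 ≤ (p : ℤ) * n := mul_le_mul (by omega) hn (by norm_num) (by omega)
    omega

theorem TP_iter_pos (hp : Odd p) (k : ℕ) {n : ℤ} (hn : 1 ≤ n) : 1 ≤ (TP p)^[k] n := by
  induction k with
  | zero => exact hn
  | succ k ih =>
    rw [Function.iterate_succ_apply']
    exact TP_pos hp ih

theorem TP_nonpos (hp : Odd p) {n : ℤ} (hn : n ≤ 0) : TP p n ≤ 0 := by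
  obtain ⟨r, hr⟩ := hp
  have hpz : (p : ℤ) = 2 * r + 1 := by exact_mod_cast hr
  have hr0 : (0 : ℤ) ≤ r := by positivity
  unfold TP
  split_ifs with h
  · omega
  · have h1 : n ≤ -1 := by omega
    have : (p : ℤ) * n ≤ (p : ℤ) * (-1) := mul_le_mul_of_nonneg_left h1 (by omega)
    omega

theorem TP_iter_nonpos (hp : Odd p) (k : ℕ) {n : ℤ} (hn : n ≤ 0) : (TP p)^[k] n ≤ 0 := by
  induction k with
  | zero => exact hn
  | succ k ih =>
    rw [Function.iterate_succ_apply']
    exact TP_nonpos hp ih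

/-- size of the terms -/
theorem TP_size (hp : Odd p) (k : ℕ) {n : ℤ} (h1 : 1 ≤ n) (h2 : n ≤ 2 ^ k) :
    1 ≤ (TP p)^[k] n ∧ (TP p)^[k] n ≤ (p : ℤ) ^ (oP p k n) := by
  refine ⟨TP_iter_pos hp k h1, ?_⟩
  have h3 := (TP_add hp k n (-1)).1
  have h4 := TP_iter_nonpos hp k (n := n + 2 ^ k * (-1)) (by linarith)
  rw [h3] at h4
  linarith

/-- the number of the `n` with `1 ≤ n ≤ 2 ^ k` and `o` odd terms -/
def cnt (p k o : ℕ) : ℕ := ((range (2 ^ k)).filter fun n : ℕ => oP p k ((n : ℤ) + 1) = o).card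

theorem sum_split (k : ℕ) (F : ℕ → ℕ) :
    ∑ n ∈ range (2 ^ (k + 1)), F n = ∑ n ∈ range (2 ^ k), (F n + F (n + 2 ^ k)) := by
  rw [pow_succ, mul_two, sum_range_add, sum_add_distrib]
  congr 1
  exact sum_congr rfl fun n _ => by rw [add_comm]

theorem cnt_eq (hp : Odd p) (k : ℕ) : ∀ o : ℕ, cnt p k o = k.choose o := by
  have hodd : ∀ m : ℕ, (p : ℤ) ^ m % 2 = 1 := by
    intro m
    have h1 : Odd ((p : ℤ) ^ m) := by
      have : Odd ((p : ℤ)) := by exact_mod_cast hp
      exact this.pow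
    exact Int.odd_iff.1 h1
  induction k with
  | zero =>
    intro o
    unfold cnt
    rcases Nat.eq_zero_or_pos o with rfl | h
    · simp [oP_zero]
    · rw [Nat.choose_eq_zero_of_lt h, card_eq_zero, filter_eq_empty_iff]
      intro n _
      rw [oP_zero]
      omega
  | succ k ih =>
    intro o
    have key : ∀ n : ℕ, ((if oP p (k + 1) ((n : ℤ) + 1) = o then 1 else 0) +
        (if oP p (k + 1) (((n + 2 ^ k : ℕ) : ℤ) + 1) = o then 1 else 0) : ℕ) =
        (if oP p k ((n : ℤ) + 1) = o then 1 else 0) +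
        (if oP p k ((n : ℤ) + 1) + 1 = o then 1 else 0) := by
      intro n
      have e1 : (((n + 2 ^ k : ℕ) : ℤ) + 1) = ((n : ℤ) + 1) + 2 ^ k * 1 := by
        push_cast
        ring
      obtain ⟨h1, h2⟩ := TP_add hp k ((n : ℤ) + 1) 1
      rw [e1, oP_succ, oP_succ, h1, h2, mul_one]
      set y : ℤ := (TP p)^[k] ((n : ℤ) + 1) with hy
      set c : ℕ := oP p k ((n : ℤ) + 1) with hc
      have h3 := hodd c
      set P : ℤ := (p : ℤ) ^ c with hP
      by_cases h : y % 2 = 1
      · rw [if_pos h, if_neg (show ¬ (y + P) % 2 = 1 by omega), add_zero]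
        ring
      · rw [if_neg h, if_pos (show (y + P) % 2 = 1 by omega), add_zero]
    unfold cnt
    rw [card_filter, sum_split, sum_congr rfl fun n _ => key n, sum_add_distrib, ← card_filter]
    have h1 : ((range (2 ^ k)).filter fun n : ℕ => oP p k ((n : ℤ) + 1) = o).card = k.choose o := ih o
    rw [h1]
    rcases Nat.eq_zero_or_pos o with rfl | ho
    · simp
    · obtain ⟨o', rfl⟩ : ∃ o', o = o' + 1 := ⟨o - 1, by omega⟩
      have h2 : (∑ n ∈ range (2 ^ k), if oP p k ((n : ℤ) + 1) + 1 = o' + 1 then 1 else 0) =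
          k.choose o' := by
        rw [← ih o']
        unfold cnt
        rw [card_filter]
        refine sum_congr rfl fun n _ => ?_
        congr 1
        simp
      rw [h2, Nat.choose_succ_succ, add_comm]

end Pool.Agent.Y966.CC
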