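import Pool.Agent.Y966.CC.Total

/-!
The `q`-tuples of integers in any interval of `2^k` consecutive integers with the same `k`-th iterate.
-/

set_option autoImplicit false
set_option linter.unusedVariables false

namespace Pool.Agent.Y966.CC

open Finset Pool.Agent.H320R2.PD Pool.Agent.H377R2.NK Pool.Agent.Y966.NQ

variable {p : ℕ}

/-- `2 ^ k` consecutive integers -/
noncomputable def II (k : ℕ) (m : ℤ) : Finset ℤ := Ioc m (m + 2 ^ k)

/-- the `n` in the interval with `o` odd terms and `T^k n ≡ r` modulo `p ^ o` -/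
noncomputable def RI (p k o : ℕ) (m r : ℤ) : Finset ℤ :=
  (II k m).filter fun n => (p : ℤ) ^ o ∣ r - (TP p)^[k] n ∧ oP p k n = o

theorem RI_le (hp : Odd p) (k o : ℕ) (m r : ℤ) : (RI p k o m r).card ≤ (WO p k o r).card := by
  obtain ⟨hf, hc⟩ := ncard_le_WO hp k o r
  refine le_trans ?_ hc
  rw [← Set.ncard_coe_finset]
  refine Set.ncard_le_ncard_of_injOn
    (fun n : ℤ => n + 2 ^ k * ((r - (TP p)^[k] n) / (p : ℤ) ^ o)) ?_ ?_ hf
  · intro n hn
    rw [mem_coe, RI, mem_filter] at hn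
    obtain ⟨_, h2, h3⟩ := hn
    obtain ⟨h4, h5⟩ := TP_add hp k n ((r - (TP p)^[k] n) / (p : ℤ) ^ o)
    refine ⟨?_, h5.trans h3⟩
    rw [h4, h3, Int.mul_ediv_cancel' h2]
    ring
  · intro a ha b hb hab
    rw [mem_coe, RI, mem_filter, II, mem_Ioc] at ha hb
    obtain ⟨⟨ha1, ha2⟩, _⟩ := ha
    obtain ⟨⟨hb1, hb2⟩, _⟩ := hb
    have h : a + 2 ^ k * ((r - (TP p)^[k] a) / (p : ℤ) ^ o) =
        b + 2 ^ k * ((r - (TP p)^[k] b) / (p : ℤ) ^ o) := hab
    have hd : (2 : ℤ) ^ k ∣ a - b :=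
      ⟨(r - (TP p)^[k] b) / (p : ℤ) ^ o - (r - (TP p)^[k] a) / (p : ℤ) ^ o, by linear_combination h⟩
    obtain ⟨c, hc⟩ := hd
    have h2k : (0 : ℤ) < 2 ^ k := by positivity
    have h1 : (2 : ℤ) ^ k * c < 2 ^ k * 1 := by linarith
    have h2 : (2 : ℤ) ^ k * (-1) < 2 ^ k * c := by linarith
    have h3 : c < 1 := lt_of_mul_lt_mul_left h1 h2k.le
    have h4 : -1 < c := lt_of_mul_lt_mul_left h2 h2k.le
    have h5 : c = 0 := by omega
    rw [h5, mul_zero] at hc
    omega

theorem RI_DD {z : ℝ} [hz : Fact (ZC p z)] (hp : Odd p) (k o : ℕ) (m r : ℤ) :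
    (th p z) ^ o * z ^ k * ((RI p k o m r).card : ℝ) ≤ NQ.DD p z k o r := by
  have hth := th_pos (p := p) (z := z)
  have hz0 := hz.out.pos
  have hz1 := hz.out.lt
  have h2 : ((RI p k o m r).card : ℝ) ≤ ((WO p k o r).card : ℝ) := by
    exact_mod_cast RI_le hp k o m r
  calc (th p z) ^ o * z ^ k * ((RI p k o m r).card : ℝ)
      ≤ (th p z) ^ o * z ^ k * ((WO p k o r).card : ℝ) :=
        mul_le_mul_of_nonneg_left h2 (by positivity)
    _ = ∑ w ∈ WO p k o r, (th p z) ^ o * z ^ k := by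
        rw [sum_const, nsmul_eq_mul, mul_comm]
    _ ≤ ∑ w ∈ WO p k o r, zw p z w := by
        refine sum_le_sum fun w hw => ?_
        rw [mem_WO, C1_mem] at hw
        unfold zw
        rw [hw.2]
        exact mul_le_mul_of_nonneg_left (pow_le_pow_of_le_one hz0.le hz1.le hw.1.2.1)
          (by positivity)
    _ ≤ NQ.DD p z k o r := by
        unfold NQ.DD
        exact sum_le_sum_of_subset_of_nonneg WO_sub fun w _ _ => zw_nonneg w

/-- the typed moment bound, uniformly in the interval -/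
theorem typedI {z : ℝ} [hz : Fact (ZC p z)] (hp : p = 3 ∨ p = 5) {q : ℕ} (hq : 2 ≤ q) {ε : ℝ}
    (hε : 0 < ε) : ∃ C : ℝ, 0 < C ∧ ∀ (k o : ℕ) (m : ℤ),
      ((th p z) ^ o * z ^ k) ^ q * ∑ r ∈ range (p ^ o), ((RI p k o m (r : ℤ)).card : ℝ) ^ q ≤
        C * Real.exp ((max (Real.log p) (L1 p z q) + ε) * o) := by
  obtain ⟨C, hC, hup⟩ := Zq_upper' (p := p) (z := z) hp hq hε
  refine ⟨C, hC, fun k o m => le_trans ?_ (hup o k)⟩
  have hodd : Odd p := NQ.odd_of hp
  have hth := th_pos (p := p) (z := z)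
  have hz0 := hz.out.pos
  rw [mul_sum]
  unfold NQ.Zq
  refine sum_le_sum fun r _ => ?_
  rw [← mul_pow]
  exact pow_le_pow_left₀ (by positivity) (RI_DD hodd k o m _) q

/-- the values of `T^k` on the interval -/
noncomputable def AI (p k : ℕ) (m : ℤ) : Finset ℤ := (II k m).image fun n => (TP p)^[k] n

/-- the `n` in the interval with `T^k n = a` -/
noncomputable def FI (p k : ℕ) (m a : ℤ) : Finset ℤ := (II k m).filter fun n => (TP p)^[k] n = a

/-- the `n` in the interval with `T^k n = a` and `o` odd terms -/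
noncomputable def GI (p k o : ℕ) (m a : ℤ) : Finset ℤ :=
  (II k m).filter fun n => (TP p)^[k] n = a ∧ oP p k n = o

theorem FI_card (k : ℕ) (m a : ℤ) : (FI p k m a).card = ∑ o ∈ range (k + 1), (GI p k o m a).card := by
  unfold FI GI
  rw [card_eq_sum_card_fiberwise (f := fun n : ℤ => oP p k n) (t := range (k + 1))]
  · refine sum_congr rfl fun o _ => ?_
    rw [filter_filter]
  · intro n hn
    simp only [coe_range, Set.mem_Iio]
    have := oP_le (p := p) k n
    omega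

/-- the total moment -/
noncomputable def MI (p q k : ℕ) (m : ℤ) : ℝ := ∑ a ∈ AI p k m, ((FI p k m a).card : ℝ) ^ q

theorem sum_pow_le {ι : Type*} (s : Finset ι) (f : ι → ℝ) (hf : ∀ i ∈ s, 0 ≤ f i) {q : ℕ} (hq : 1 ≤ q) :
    ∑ i ∈ s, f i ^ q ≤ (∑ i ∈ s, f i) ^ q := by
  obtain ⟨q', rfl⟩ : ∃ q', q = q' + 1 := ⟨q - 1, by omega⟩
  rw [pow_succ (∑ i ∈ s, f i), mul_sum]
  refine sum_le_sum fun i hi => ?_
  rw [pow_succ]
  apply mul_le_mul_of_nonneg_right _ (hf i hi)
  exact pow_le_pow_left₀ (hf i hi) (single_le_sum hf hi) _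

theorem class_sum (hp : Odd p) {q : ℕ} (hq : 1 ≤ q) (k o : ℕ) (m : ℤ) :
    ∑ a ∈ AI p k m, ((GI p k o m a).card : ℝ) ^ q ≤
      ∑ r ∈ range (p ^ o), ((RI p k o m (r : ℤ)).card : ℝ) ^ q := by
  classical
  have hP : (0 : ℤ) < ((p ^ o : ℕ) : ℤ) := by exact_mod_cast Nat.pow_pos hp.pos
  rw [← sum_fiberwise_of_maps_to (s := AI p k m) (t := range (p ^ o))
    (g := fun a : ℤ => (a % ((p ^ o : ℕ) : ℤ)).toNat)]
  · refine sum_le_sum fun r _ => ?_
    refine (sum_pow_le _ _ (fun a _ => Nat.cast_nonneg _) hq).trans ?_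
    apply pow_le_pow_left₀ (by positivity)
    have h1 : ∑ a ∈ (AI p k m).filter (fun a : ℤ => (a % ((p ^ o : ℕ) : ℤ)).toNat = r),
        (GI p k o m a).card ≤ (RI p k o m (r : ℤ)).card := by
      rw [← card_biUnion]
      · apply card_le_card
        intro n hn
        rw [mem_biUnion] at hn
        obtain ⟨a, ha, hn⟩ := hn
        rw [mem_filter] at ha
        rw [GI, mem_filter] at hn
        rw [RI, mem_filter]
        refine ⟨hn.1, ?_, hn.2.2⟩
        rw [hn.2.1]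
        have h2 := ha.2
        have h3 : a % ((p ^ o : ℕ) : ℤ) = r := by
          have := Int.emod_nonneg a hP.ne'
          omega
        have h4 : ((p ^ o : ℕ) : ℤ) ∣ r - a := by
          rw [← h3]
          exact ⟨-(a / ((p ^ o : ℕ) : ℤ)), by linarith [Int.emod_add_mul_ediv a ((p ^ o : ℕ) : ℤ)]⟩
        exact_mod_cast h4
      · intro a _ b _ hab
        rw [Function.onFun, disjoint_left]
        intro n hn hn'
        rw [GI, mem_filter] at hn hn'
        exact hab (hn.2.1.symm.trans hn'.2.1)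
    exact_mod_cast h1
  · intro a _
    rw [mem_range]
    have h1 := Int.emod_nonneg a hP.ne'
    have h2 := Int.emod_lt_of_pos a hP
    omega

theorem MI_le (hp : Odd p) {q : ℕ} (hq : 1 ≤ q) (k : ℕ) (m : ℤ) :
    MI p q k m ≤ ((k : ℝ) + 1) ^ (q - 1) *
      ∑ o ∈ range (k + 1), ∑ r ∈ range (p ^ o), ((RI p k o m (r : ℤ)).card : ℝ) ^ q := by
  have h1 : ∀ a : ℤ, ((FI p k m a).card : ℝ) ^ q ≤
      ((k : ℝ) + 1) ^ (q - 1) * ∑ o ∈ range (k + 1), ((GI p k o m a).card : ℝ) ^ q := by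
    intro a
    obtain ⟨q', rfl⟩ : ∃ q', q = q' + 1 := ⟨q - 1, by omega⟩
    rw [FI_card, Nat.add_sub_cancel]
    push_cast
    have h2 := pow_sum_div_card_le_sum_pow (s := range (k + 1))
      (f := fun o => ((GI p k o m a).card : ℝ)) (fun o _ => Nat.cast_nonneg _) q'
    rw [card_range, div_le_iff₀ (by positivity)] at h2
    push_cast at h2
    linarith
  unfold MI
  calc ∑ a ∈ AI p k m, ((FI p k m a).card : ℝ) ^ q
      ≤ ∑ a ∈ AI p k m, ((k : ℝ) + 1) ^ (q - 1) *
          ∑ o ∈ range (k + 1), ((GI p k o m a).card : ℝ) ^ q := sum_le_sum fun a _ => h1 a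
    _ = ((k : ℝ) + 1) ^ (q - 1) * ∑ o ∈ range (k + 1), ∑ a ∈ AI p k m,
          ((GI p k o m a).card : ℝ) ^ q := by
        rw [← mul_sum, sum_comm]
    _ ≤ _ := by
        apply mul_le_mul_of_nonneg_left _ (by positivity)
        exact sum_le_sum fun o _ => class_sum hp hq k o m

/-- upper bound for the total moment -/
theorem total_upperI {p : ℕ} (hp : p = 3 ∨ p = 5) {q : ℕ} (hq : 2 ≤ q) {ε : ℝ} (hε : 0 < ε) :
    ∃ C : ℝ, 0 < C ∧ ∀ (k : ℕ) (m : ℤ), MI p q k m ≤
      ((k : ℝ) + 1) ^ q * (C * Real.exp (ε * k) * (1 + ss p q) ^ (q * k)) := by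
  have hp1 : 1 ≤ p := by omega
  haveI : Fact (ZC p (zs p q)) := ⟨zs_zc hp1 q⟩
  have hodd : Odd p := NQ.odd_of hp
  have hs := ss_pos hp1 q
  have hp0 : (0 : ℝ) < p := by exact_mod_cast hp1
  obtain ⟨C, hC, hup⟩ := typedI (p := p) (z := zs p q) hp hq hε
  refine ⟨C, hC, fun k m => (MI_le hodd (show 1 ≤ q by omega) k m).trans ?_⟩
  have hterm : ∀ o ∈ range (k + 1), ∑ r ∈ range (p ^ o), ((RI p k o m (r : ℤ)).card : ℝ) ^ q ≤
      C * Real.exp (ε * k) * (1 + ss p q) ^ (q * k) := by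
    intro o ho
    rw [mem_range] at ho
    have h1 := hup k o m
    rw [max_eq_left (L1_le hp hq), mul_pow, ← pow_mul, mul_comm o q, pow_mul,
      th_pow hp1 (show 1 ≤ q by omega)] at h1
    have e1 : (zs p q ^ k) ^ q = 1 / (1 + ss p q) ^ (q * k) := by
      unfold zs
      rw [← pow_mul, mul_comm k q, div_pow, one_pow]
    rw [e1, add_mul, Real.exp_add, mul_comm (Real.log p) (o : ℝ), Real.exp_nat_mul,
      Real.exp_log hp0] at h1
    have h2 : (0 : ℝ) < (p : ℝ) ^ o := by positivity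
    have h3 : (0 : ℝ) < (1 + ss p q) ^ (q * k) := by positivity
    have h4 : ∑ r ∈ range (p ^ o), ((RI p k o m (r : ℤ)).card : ℝ) ^ q ≤
        C * Real.exp (ε * o) * (1 + ss p q) ^ (q * k) := by
      have h5 : (p : ℝ) ^ o * (1 / (1 + ss p q) ^ (q * k)) *
          ∑ r ∈ range (p ^ o), ((RI p k o m (r : ℤ)).card : ℝ) ^ q =
          (p : ℝ) ^ o / (1 + ss p q) ^ (q * k) *
          ∑ r ∈ range (p ^ o), ((RI p k o m (r : ℤ)).card : ℝ) ^ q := by
        rw [mul_one_div]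
      rw [h5, div_mul_eq_mul_div, div_le_iff₀ h3] at h1
      have h6 : (p : ℝ) ^ o * ∑ r ∈ range (p ^ o), ((RI p k o m (r : ℤ)).card : ℝ) ^ q ≤
          (p : ℝ) ^ o * (C * Real.exp (ε * o) * (1 + ss p q) ^ (q * k)) := by
        refine h1.trans (le_of_eq ?_)
        ring
      exact le_of_mul_le_mul_left h6 h2
    refine h4.trans ?_
    apply mul_le_mul_of_nonneg_right _ h3.le
    apply mul_le_mul_of_nonneg_left _ hC.le
    apply Real.exp_le_exp.2
    apply mul_le_mul_of_nonneg_left _ hε.le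
    exact_mod_cast (by omega : o ≤ k)
  have hsum := sum_le_sum hterm
  rw [sum_const, card_range, nsmul_eq_mul] at hsum
  push_cast at hsum
  calc ((k : ℝ) + 1) ^ (q - 1) *
        ∑ o ∈ range (k + 1), ∑ r ∈ range (p ^ o), ((RI p k o m (r : ℤ)).card : ℝ) ^ q
      ≤ ((k : ℝ) + 1) ^ (q - 1) *
          (((k : ℝ) + 1) * (C * Real.exp (ε * k) * (1 + ss p q) ^ (q * k))) :=
        mul_le_mul_of_nonneg_left hsum (by positivity)
    _ = _ := by
        rw [← mul_assoc, ← pow_succ]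
        congr 2
        omega

/-! ### the lower bound -/

theorem shift_count (k : ℕ) (P : ℤ → Prop) [DecidablePred P] (hP : ∀ n, P (n + 2 ^ k) ↔ P n) (m : ℤ) :
    ((II k m).filter P).card = ((II k 0).filter P).card := by
  have h2k : (0 : ℤ) < 2 ^ k := by positivity
  have hper : Function.Periodic (fun m : ℤ => ((II k m).filter P).card) 1 := by
    intro m
    have e1 : II k m = insert (m + 1) (Ioc (m + 1) (m + 2 ^ k)) := by
      ext n
      simp only [II, mem_Ioc, mem_insert]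
      omega
    have e2 : II k (m + 1) = insert (m + 1 + 2 ^ k) (Ioc (m + 1) (m + 2 ^ k)) := by
      ext n
      simp only [II, mem_Ioc, mem_insert]
      omega
    have n1 : m + 1 ∉ (Ioc (m + 1) (m + 2 ^ k)).filter P := by
      simp only [mem_filter, mem_Ioc]
      omega
    have n2 : m + 1 + 2 ^ k ∉ (Ioc (m + 1) (m + 2 ^ k)).filter P := by
      simp only [mem_filter, mem_Ioc]
      omega
    change ((II k (m + 1)).filter P).card = ((II k m).filter P).card
    rw [e1, e2, filter_insert, filter_insert]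
    by_cases h : P (m + 1)
    · rw [if_pos ((hP _).2 h), if_pos h, card_insert_of_notMem n1, card_insert_of_notMem n2]
    · rw [if_neg (fun h' => h ((hP _).1 h')), if_neg h]
  have := hper.int_mul_eq m
  simpa using this

theorem cntI (hp : Odd p) (k o : ℕ) (m : ℤ) :
    ((II k m).filter fun n => oP p k n = o).card = k.choose o := by
  rw [shift_count k (fun n => oP p k n = o) (fun n => by
    have := (TP_add hp k n 1).2
    rw [mul_one] at this
    rw [this]) m, ← cnt_eq hp k o]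
  unfold cnt
  symm
  refine card_bij (fun (n : ℕ) _ => (n : ℤ) + 1) ?_ ?_ ?_
  · intro n hn
    rw [mem_filter, mem_range] at hn
    rw [mem_filter, II, mem_Ioc]
    have : (n : ℤ) < 2 ^ k := by exact_mod_cast hn.1
    exact ⟨by omega, hn.2⟩
  · intro a _ b _ h
    omega
  · intro n hn
    rw [mem_filter, II, mem_Ioc] at hn
    refine ⟨(n - 1).toNat, ?_, by omega⟩
    rw [mem_filter, mem_range]
    have h1 : (((n - 1).toNat : ℕ) : ℤ) + 1 = n := by omega
    rw [h1]
    refine ⟨?_, hn.2⟩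
    have : (((n - 1).toNat : ℕ) : ℤ) < ((2 ^ k : ℕ) : ℤ) := by
      push_cast
      omega
    exact_mod_cast this

theorem value_range (hp : Odd p) (k : ℕ) {m n : ℤ} (hn : n ∈ II k m) :
    (p : ℤ) ^ (oP p k n) * (m / 2 ^ k) < (TP p)^[k] n ∧
      (TP p)^[k] n ≤ (p : ℤ) ^ (oP p k n) * (m / 2 ^ k) + 2 * (p : ℤ) ^ (oP p k n) := by
  rw [II, mem_Ioc] at hn
  have h2k : (0 : ℤ) < 2 ^ k := by positivity
  have hm1 := Int.emod_nonneg m h2k.ne'
  have hm2 := Int.emod_lt_of_pos m h2k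
  have hm3 := Int.emod_add_mul_ediv m (2 ^ k)
  set J : ℤ := m / 2 ^ k with hJ
  set n' : ℤ := n + 2 ^ k * (-J) with hn'
  have h1 : 1 ≤ n' := by
    rw [hn']
    linarith
  obtain ⟨h3, h4⟩ := TP_add hp k n (-J)
  rw [← hn'] at h3 h4
  rcases le_or_gt n' (2 ^ k) with h | h
  · obtain ⟨h5, h6⟩ := TP_size hp k h1 h
    rw [h4] at h6
    rw [h3] at h5 h6
    have : (0 : ℤ) < (p : ℤ) ^ (oP p k n) := by
      have : (0 : ℤ) < p := by exact_mod_cast hp.pos
      positivity
    constructor <;> linarith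
  · obtain ⟨h7, h8⟩ := TP_add hp k n' (-1)
    obtain ⟨h5, h6⟩ := TP_size hp k (n := n' + 2 ^ k * (-1)) (by linarith) (by
      rw [hn']
      linarith)
    rw [h8, h4] at h6
    rw [h7, h4, h3] at h5 h6
    have : (0 : ℤ) < (p : ℤ) ^ (oP p k n) := by
      have : (0 : ℤ) < p := by exact_mod_cast hp.pos
      positivity
    constructor <;> linarith

theorem MI_ge (hp : Odd p) {q : ℕ} (hq : 1 ≤ q) (k o : ℕ) (m : ℤ) :
    ((k.choose o : ℕ) : ℝ) ^ q / (2 * (p : ℝ) ^ o) ^ (q - 1) ≤ MI p q k m := by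
  classical
  obtain ⟨q', rfl⟩ : ∃ q', q = q' + 1 := ⟨q - 1, by omega⟩
  rw [Nat.add_sub_cancel]
  set B : Finset ℤ := Ioc ((p : ℤ) ^ o * (m / 2 ^ k)) ((p : ℤ) ^ o * (m / 2 ^ k) + 2 * (p : ℤ) ^ o)
    with hB
  have hBc : B.card = 2 * p ^ o := by
    rw [hB, Int.card_Ioc]
    have : (p : ℤ) ^ o * (m / 2 ^ k) + 2 * (p : ℤ) ^ o - (p : ℤ) ^ o * (m / 2 ^ k) =
        ((2 * p ^ o : ℕ) : ℤ) := by
      push_cast
      ring
    rw [this, Int.toNat_natCast]
  have h2 := pow_sum_div_card_le_sum_pow (s := B)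
      (f := fun a => ((GI p k o m a).card : ℝ)) (fun o _ => Nat.cast_nonneg _) q'
  have h3 : ∑ a ∈ B, ((GI p k o m a).card : ℝ) = (k.choose o : ℝ) := by
    rw [← cntI hp k o m]
    rw [card_eq_sum_card_fiberwise (f := fun n : ℤ => (TP p)^[k] n) (t := B)]
    · push_cast
      refine sum_congr rfl fun a _ => ?_
      rw [filter_filter, GI]
      congr 2
      ext n
      simp only [mem_filter]
      tauto
    · intro n hn
      rw [mem_coe, mem_filter] at hn
      have h4 := value_range hp k hn.1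
      rw [hn.2] at h4
      rw [hB, mem_coe, mem_Ioc]
      exact h4
  rw [h3, hBc] at h2
  push_cast at h2
  refine h2.trans ?_
  unfold MI
  have hzero : ∀ a ∈ B, a ∉ AI p k m → ((GI p k o m a).card : ℝ) ^ (q' + 1) = 0 := by
    intro a _ ha
    have : (GI p k o m a).card = 0 := by
      rw [card_eq_zero, GI, filter_eq_empty_iff]
      rintro n hn ⟨h4, _⟩
      apply ha
      rw [AI, mem_image]
      exact ⟨n, hn, h4⟩
    rw [this]
    simp
  calc ∑ a ∈ B, ((GI p k o m a).card : ℝ) ^ (q' + 1)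
      = ∑ a ∈ B.filter (fun a => a ∈ AI p k m), ((GI p k o m a).card : ℝ) ^ (q' + 1) := by
        rw [sum_filter_of_ne]
        intro a ha hne
        by_contra hcon
        exact hne (hzero a ha hcon)
    _ ≤ ∑ a ∈ AI p k m, ((GI p k o m a).card : ℝ) ^ (q' + 1) := by
        apply sum_le_sum_of_subset_of_nonneg
        · intro a ha
          rw [mem_filter] at ha
          exact ha.2
        · intro a _ _
          positivity
    _ ≤ ∑ a ∈ AI p k m, ((FI p k m a).card : ℝ) ^ (q' + 1) := by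
        refine sum_le_sum fun a _ => pow_le_pow_left₀ (Nat.cast_nonneg _) ?_ _
        have : (GI p k o m a).card ≤ (FI p k m a).card := by
          apply card_le_card
          intro n hn
          rw [GI, mem_filter] at hn
          rw [FI, mem_filter]
          exact ⟨hn.1, hn.2.1⟩
        exact_mod_cast this

/-- lower bound for the total moment -/
theorem total_lowerI {p : ℕ} (hp : Odd p) {q : ℕ} (hq : 1 ≤ q) (k : ℕ) (m : ℤ) :
    (1 + ss p q) ^ (q * k) ≤ (2 * ((k : ℝ) + 1)) ^ q * MI p q k m := by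
  have hp1 : 1 ≤ p := hp.pos
  have hs := ss_pos hp1 q
  have hp0 : (0 : ℝ) < p := by exact_mod_cast hp1
  have hM0 : 0 ≤ MI p q k m := by unfold MI; positivity
  have hterm : ∀ o ∈ range (k + 1), ((ss p q ^ o * (k.choose o : ℝ))) ^ q ≤ 2 ^ q * MI p q k m := by
    intro o ho
    have h0 := MI_ge hp hq k o m
    rw [div_le_iff₀ (by positivity)] at h0
    have h1 := ss_pow hp1 hq
    have h2 : (ss p q ^ q) ^ o * ((p : ℝ) ^ o) ^ (q - 1) = 1 := by
      rw [← pow_mul (p : ℝ), mul_comm o (q - 1), pow_mul, ← mul_pow, h1, one_pow]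
    have h3 : (ss p q ^ o * (k.choose o : ℝ)) ^ q = (ss p q ^ q) ^ o * (k.choose o : ℝ) ^ q := by
      rw [mul_pow, ← pow_mul, mul_comm o q, pow_mul]
    have h4 : (0 : ℝ) < (ss p q ^ q) ^ o := by positivity
    calc (ss p q ^ o * (k.choose o : ℝ)) ^ q = (ss p q ^ q) ^ o * (k.choose o : ℝ) ^ q := h3
      _ ≤ (ss p q ^ q) ^ o * (MI p q k m * (2 * (p : ℝ) ^ o) ^ (q - 1)) :=
          mul_le_mul_of_nonneg_left h0 h4.le
      _ = MI p q k m * 2 ^ (q - 1) * ((ss p q ^ q) ^ o * ((p : ℝ) ^ o) ^ (q - 1)) := by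
          rw [mul_pow]; ring
      _ = 2 ^ (q - 1) * MI p q k m := by rw [h2, mul_one, mul_comm]
      _ ≤ 2 ^ q * MI p q k m := by
          apply mul_le_mul_of_nonneg_right _ hM0
          exact pow_le_pow_right₀ (by norm_num) (by omega)
  have hbin : (1 + ss p q) ^ k = ∑ o ∈ range (k + 1), ss p q ^ o * (k.choose o : ℝ) := by
    rw [add_comm, add_pow]
    refine sum_congr rfl fun o _ => ?_
    rw [one_pow, mul_one]
  obtain ⟨q', rfl⟩ : ∃ q', q = q' + 1 := ⟨q - 1, by omega⟩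
  have h2 := pow_sum_div_card_le_sum_pow (s := range (k + 1))
      (f := fun o => ss p (q' + 1) ^ o * (k.choose o : ℝ)) (fun o _ => by positivity) q'
  rw [← hbin, card_range, div_le_iff₀ (by positivity), ← pow_mul, mul_comm k] at h2
  push_cast at h2
  have h3 : ∑ o ∈ range (k + 1), (ss p (q' + 1) ^ o * (k.choose o : ℝ)) ^ (q' + 1) ≤
      ((k : ℝ) + 1) * (2 ^ (q' + 1) * MI p (q' + 1) k m) := by
    have := sum_le_sum hterm
    rw [sum_const, card_range, nsmul_eq_mul] at this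
    push_cast at this
    exact this
  calc (1 + ss p (q' + 1)) ^ ((q' + 1) * k)
      ≤ (∑ o ∈ range (k + 1), (ss p (q' + 1) ^ o * (k.choose o : ℝ)) ^ (q' + 1)) *
          ((k : ℝ) + 1) ^ q' := h2
    _ ≤ (((k : ℝ) + 1) * (2 ^ (q' + 1) * MI p (q' + 1) k m)) * ((k : ℝ) + 1) ^ q' :=
        mul_le_mul_of_nonneg_right h3 (by positivity)
    _ = _ := by
        rw [mul_pow]
        ring

/-- the growth rate of the total moment -/
theorem totalI {p : ℕ} (hp : p = 3 ∨ p = 5) {q : ℕ} (hq : 2 ≤ q) {ε : ℝ} (hε : 0 < ε) :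
    ∃ k₀ : ℕ, ∀ k : ℕ, k₀ ≤ k → ∀ m : ℤ,
      Real.exp (-(ε * k)) * (1 + ss p q) ^ (q * k) ≤ MI p q k m ∧
      MI p q k m ≤ Real.exp (ε * k) * (1 + ss p q) ^ (q * k) := by
  have hp1 : 1 ≤ p := by omega
  have hodd : Odd p := NQ.odd_of hp
  have hs := ss_pos hp1 q
  obtain ⟨C, hC, hup⟩ := total_upperI hp hq (show 0 < ε / 2 by positivity)
  have hq0 : (0 : ℝ) < q := by positivity
  have hl2 : 0 < Real.log 2 := Real.log_pos (by norm_num)
  obtain ⟨K', hK'0, hK'⟩ := Pool.Agent.Y966.LD.log_lin (show 0 < ε / (4 * q) by positivity)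
  obtain ⟨k₀, hk₀⟩ := exists_nat_ge (4 * (q * (K' + Real.log 2) + |Real.log C|) / ε)
  refine ⟨k₀, fun k hk m => ?_⟩
  have hk' : 4 * (q * (K' + Real.log 2) + |Real.log C|) / ε ≤ k := hk₀.trans (by exact_mod_cast hk)
  rw [div_le_iff₀ hε] at hk'
  have hkn : (0 : ℝ) ≤ k := Nat.cast_nonneg k
  have hk1 : (0 : ℝ) < (k : ℝ) + 1 := by positivity
  have hlog := hK' k hkn
  have h1 : (q : ℝ) * Real.log ((k : ℝ) + 1) ≤ ε / 4 * k + q * K' := by
    have h2 := mul_le_mul_of_nonneg_left hlog hq0.le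
    have h3 : (q : ℝ) * (ε / (4 * q) * k + K') = ε / 4 * k + q * K' := by
      field_simp
    linarith
  have h4 := le_abs_self (Real.log C)
  have h5 := abs_nonneg (Real.log C)
  have hpow : ((k : ℝ) + 1) ^ q = Real.exp (q * Real.log ((k : ℝ) + 1)) := by
    rw [Real.exp_nat_mul, Real.exp_log hk1]
  have hpow2 : (2 * ((k : ℝ) + 1)) ^ q = Real.exp (q * (Real.log 2 + Real.log ((k : ℝ) + 1))) := by
    rw [Real.exp_nat_mul, Real.exp_add, Real.exp_log hk1, Real.exp_log (by norm_num)]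
  have hB : (0 : ℝ) < (1 + ss p q) ^ (q * k) := by positivity
  constructor
  · have h6 := total_lowerI hodd (show 1 ≤ q by omega) k m
    have h7 : Real.exp (-(ε * k)) * (2 * ((k : ℝ) + 1)) ^ q ≤ 1 := by
      rw [hpow2, ← Real.exp_add]
      apply Real.exp_le_one_iff.2
      nlinarith
    have hM0 : 0 ≤ MI p q k m := by unfold MI; positivity
    calc Real.exp (-(ε * k)) * (1 + ss p q) ^ (q * k)
        ≤ Real.exp (-(ε * k)) * ((2 * ((k : ℝ) + 1)) ^ q * MI p q k m) :=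
          mul_le_mul_of_nonneg_left h6 (Real.exp_pos _).le
      _ = (Real.exp (-(ε * k)) * (2 * ((k : ℝ) + 1)) ^ q) * MI p q k m := by ring
      _ ≤ 1 * MI p q k m := mul_le_mul_of_nonneg_right h7 hM0
      _ = _ := one_mul _
  · refine (hup k m).trans ?_
    have h7 : ((k : ℝ) + 1) ^ q * (C * Real.exp (ε / 2 * k)) ≤ Real.exp (ε * k) := by
      have e : C = Real.exp (Real.log C) := (Real.exp_log hC).symm
      rw [hpow, e, ← Real.exp_add, ← Real.exp_add]
      apply Real.exp_le_exp.2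
      nlinarith
    calc ((k : ℝ) + 1) ^ q * (C * Real.exp (ε / 2 * k) * (1 + ss p q) ^ (q * k))
        = (((k : ℝ) + 1) ^ q * (C * Real.exp (ε / 2 * k))) * (1 + ss p q) ^ (q * k) := by ring
      _ ≤ _ := mul_le_mul_of_nonneg_right h7 hB.le

/-- the total moment is the number of the `q`-tuples -/
theorem tuples (q k : ℕ) (hq : 1 ≤ q) (m : ℤ) :
    {f : Fin q → ℤ | (∀ i, m < f i ∧ f i ≤ m + 2 ^ k) ∧
      ∀ i j, (TP p)^[k] (f i) = (TP p)^[k] (f j)}.Finite ∧
    (({f : Fin q → ℤ | (∀ i, m < f i ∧ f i ≤ m + 2 ^ k) ∧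
      ∀ i j, (TP p)^[k] (f i) = (TP p)^[k] (f j)}.ncard : ℕ) : ℝ) = MI p q k m := by
  classical
  set S : Finset (Fin q → ℤ) := (AI p k m).biUnion fun a => Fintype.piFinset fun _ : Fin q => FI p k m a
    with hS
  have heq : {f : Fin q → ℤ | (∀ i, m < f i ∧ f i ≤ m + 2 ^ k) ∧
      ∀ i j, (TP p)^[k] (f i) = (TP p)^[k] (f j)} = (S : Set (Fin q → ℤ)) := by
    ext f
    rw [mem_coe, hS, mem_biUnion]
    constructor
    · rintro ⟨h1, h2⟩
      refine ⟨(TP p)^[k] (f ⟨0, by omega⟩), ?_, ?_⟩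
      · rw [AI, mem_image]
        exact ⟨_, by rw [II, mem_Ioc]; exact h1 _, rfl⟩
      · rw [Fintype.mem_piFinset]
        intro i
        rw [FI, mem_filter, II, mem_Ioc]
        exact ⟨h1 i, h2 _ _⟩
    · rintro ⟨a, _, h2⟩
      rw [Fintype.mem_piFinset] at h2
      have h3 : ∀ i, f i ∈ II k m ∧ (TP p)^[k] (f i) = a := by
        intro i
        have := h2 i
        rwa [FI, mem_filter] at this
      refine ⟨fun i => ?_, fun i j => ?_⟩
      · have := (h3 i).1
        rwa [II, mem_Ioc] at this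
      · rw [(h3 i).2, (h3 j).2]
  rw [heq]
  refine ⟨S.finite_toSet, ?_⟩
  rw [Set.ncard_coe_finset, hS, card_biUnion]
  · unfold MI
    push_cast
    refine sum_congr rfl fun a _ => ?_
    rw [Fintype.card_piFinset_const]
    push_cast
    rfl
  · intro a _ b _ hab
    rw [Function.onFun, disjoint_left]
    intro f hf hf'
    rw [Fintype.mem_piFinset] at hf hf'
    have h1 := hf ⟨0, by omega⟩
    have h2 := hf' ⟨0, by omega⟩
    rw [FI, mem_filter] at h1 h2
    exact hab (h1.2.symm.trans h2.2)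

end Pool.Agent.Y966.CC
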