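import Pool.Agent.Y966.CC.Up

/-!
Moments of the numbers of the preimages of `T_p^k` in `[1, 2^k]`.
-/

set_option autoImplicit false
set_option linter.unusedVariables false

namespace Pool.Agent.Y966.CC

open Finset Pool.Agent.H320R2.PD Pool.Agent.H377R2.NK Pool.Agent.Y966.NQ

variable {p : ℕ}

/-- the number of the `n` with `1 ≤ n ≤ 2 ^ k`, `T^k n = a` and `o` odd terms -/
def NB (p k o : ℕ) (a : ℤ) : ℕ :=
  ((range (2 ^ k)).filter fun n : ℕ => (TP p)^[k] ((n : ℤ) + 1) = a ∧ oP p k ((n : ℤ) + 1) = o).card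

/-- the number of the `n` with `1 ≤ n ≤ 2 ^ k`, `T^k n = a` -/
def NA (p k : ℕ) (a : ℤ) : ℕ :=
  ((range (2 ^ k)).filter fun n : ℕ => (TP p)^[k] ((n : ℤ) + 1) = a).card

theorem NA_eq (k : ℕ) (a : ℤ) : NA p k a = ∑ o ∈ range (k + 1), NB p k o a := by
  unfold NA NB
  rw [card_eq_sum_card_fiberwise (f := fun n : ℕ => oP p k ((n : ℤ) + 1)) (t := range (k + 1))]
  · refine sum_congr rfl fun o _ => ?_
    rw [filter_filter]
  · intro n hn
    simp only [coe_range, Set.mem_Iio]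
    have := oP_le (p := p) k ((n : ℤ) + 1)
    omega

theorem NB_le (hp : Odd p) (k o : ℕ) (a : ℤ) : NB p k o a ≤ (WO p k o a).card := by
  obtain ⟨hf, hc⟩ := ncard_le_WO hp k o a
  refine le_trans ?_ hc
  unfold NB
  rw [← Set.ncard_coe_finset]
  refine Set.ncard_le_ncard_of_injOn (fun n : ℕ => (n : ℤ) + 1) ?_ ?_ hf
  · intro n hn
    rw [mem_coe, mem_filter] at hn
    exact hn.2
  · intro m _ n _ h
    have h' : (m : ℤ) + 1 = (n : ℤ) + 1 := h
    omega

theorem WO_sub {k o : ℕ} {a : ℤ} : WO p k o a ⊆ VW p k o a := by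
  intro w hw
  rw [mem_WO, C1_mem] at hw
  obtain ⟨⟨h1, h2, h3⟩, h4⟩ := hw
  rw [mem_VW]
  subst h4
  exact ⟨rfl, fun e he => ⟨h1 e he, (C1_le_sum w e he).trans h2⟩, h3⟩

theorem NB_DD {z : ℝ} [hz : Fact (ZC p z)] (hp : Odd p) (k o : ℕ) (a : ℤ) :
    (th p z) ^ o * z ^ k * (NB p k o a : ℝ) ≤ DD p z k o a := by
  have hth := th_pos (p := p) (z := z)
  have hz0 := hz.out.pos
  have hz1 := hz.out.lt
  have h2 : (NB p k o a : ℝ) ≤ ((WO p k o a).card : ℝ) := by
    exact_mod_cast NB_le hp k o a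
  calc (th p z) ^ o * z ^ k * (NB p k o a : ℝ)
      ≤ (th p z) ^ o * z ^ k * ((WO p k o a).card : ℝ) :=
        mul_le_mul_of_nonneg_left h2 (by positivity)
    _ = ∑ w ∈ WO p k o a, (th p z) ^ o * z ^ k := by
        rw [sum_const, nsmul_eq_mul, mul_comm]
    _ ≤ ∑ w ∈ WO p k o a, zw p z w := by
        refine sum_le_sum fun w hw => ?_
        rw [mem_WO, C1_mem] at hw
        unfold zw
        rw [hw.2]
        exact mul_le_mul_of_nonneg_left (pow_le_pow_of_le_one hz0.le hz1.le hw.1.2.1)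
          (by positivity)
    _ ≤ DD p z k o a := by
        unfold NQ.DD
        exact sum_le_sum_of_subset_of_nonneg WO_sub fun w _ _ => zw_nonneg w

theorem sum_shift {P : ℕ} (F : ℤ → ℝ) (hF : F (P : ℤ) = F 0) :
    ∑ a ∈ range P, F ((a : ℤ) + 1) = ∑ a ∈ range P, F (a : ℤ) := by
  have h1 := sum_range_succ (fun a : ℕ => F (a : ℤ)) P
  have h2 := sum_range_succ' (fun a : ℕ => F (a : ℤ)) P
  rw [h1] at h2
  simp only [hF, Nat.cast_zero, Nat.cast_add, Nat.cast_one] at h2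
  linarith

/-- the typed moment bound -/
theorem typed {z : ℝ} [hz : Fact (ZC p z)] (hp : p = 3 ∨ p = 5) {q : ℕ} (hq : 2 ≤ q) {ε : ℝ}
    (hε : 0 < ε) : ∃ C : ℝ, 0 < C ∧ ∀ k o : ℕ,
      ((th p z) ^ o * z ^ k) ^ q * ∑ a ∈ range (p ^ o), (NB p k o ((a : ℤ) + 1) : ℝ) ^ q ≤
        C * Real.exp ((max (Real.log p) (L1 p z q) + ε) * o) := by
  obtain ⟨C, hC, hup⟩ := Zq_upper' (p := p) (z := z) hp hq hε
  refine ⟨C, hC, fun k o => le_trans ?_ (hup o k)⟩
  have hodd : Odd p := NQ.odd_of hp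
  have hth := th_pos (p := p) (z := z)
  have hz0 := hz.out.pos
  rw [mul_sum]
  unfold NQ.Zq
  have hper : DD p z k o ((p ^ o : ℕ) : ℤ) ^ q = DD p z k o 0 ^ q := by
    have := DD_shift (p := p) (z := z) k o 0 1
    rw [zero_add, mul_one] at this
    rw [← this]
    push_cast
    rfl
  rw [← sum_shift (fun a : ℤ => DD p z k o a ^ q) hper]
  refine sum_le_sum fun a _ => ?_
  rw [← mul_pow]
  exact pow_le_pow_left₀ (by positivity) (NB_DD hodd k o _) q

theorem NB_zero (hp : Odd p) {k o : ℕ} {a : ℕ} (ha : p ^ o ≤ a) : NB p k o ((a : ℤ) + 1) = 0 := by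
  unfold NB
  rw [card_eq_zero, filter_eq_empty_iff]
  rintro n hn ⟨h1, h2⟩
  rw [mem_range] at hn
  have h3 := (TP_size hp k (n := (n : ℤ) + 1) (by omega) (by exact_mod_cast hn)).2
  rw [h1, h2] at h3
  have : ((p ^ o : ℕ) : ℤ) ≤ a := by exact_mod_cast ha
  push_cast at this
  omega

theorem sum_NB (hp : Odd p) (k o : ℕ) (ho : o ≤ k) :
    ∑ a ∈ range (p ^ o), NB p k o ((a : ℤ) + 1) = k.choose o := by
  rw [← cnt_eq hp k o]
  unfold cnt NB
  rw [card_eq_sum_card_fiberwise (f := fun n : ℕ => ((TP p)^[k] ((n : ℤ) + 1) - 1).toNat)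
    (t := range (p ^ o))]
  · refine sum_congr rfl fun a _ => ?_
    rw [filter_filter]
    congr 1
    ext n
    simp only [mem_filter, mem_range]
    constructor
    · rintro ⟨h1, h2, h3⟩
      refine ⟨h1, h3, ?_⟩
      rw [h2]
      omega
    · rintro ⟨h1, h2, h3⟩
      have h4 := (TP_size hp k (n := (n : ℤ) + 1) (by omega) (by exact_mod_cast h1)).1
      exact ⟨h1, by omega, h2⟩
  · intro n hn
    rw [mem_coe, mem_filter, mem_range] at hn
    have h3 := TP_size hp k (n := (n : ℤ) + 1) (by omega) (by exact_mod_cast hn.1)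
    rw [hn.2] at h3
    rw [coe_range, Set.mem_Iio]
    have h4 : ((p ^ o : ℕ) : ℤ) = (p : ℤ) ^ o := by push_cast; rfl
    rw [← h4] at h3
    change ((TP p)^[k] ((n : ℤ) + 1) - 1).toNat < p ^ o
    have h5 : 0 < p ^ o := Nat.pow_pos hp.pos
    generalize (TP p)^[k] ((n : ℤ) + 1) = y at h3 ⊢
    generalize p ^ o = P at h3 h5 ⊢
    omega

/-- the total moment -/
noncomputable def MM (p q k : ℕ) : ℝ := ∑ a ∈ range (p ^ k), (NA p k ((a : ℤ) + 1) : ℝ) ^ q

theorem MM_le (hp : Odd p) {q : ℕ} (hq : 1 ≤ q) (k : ℕ) :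
    MM p q k ≤ ((k : ℝ) + 1) ^ (q - 1) *
      ∑ o ∈ range (k + 1), ∑ a ∈ range (p ^ o), (NB p k o ((a : ℤ) + 1) : ℝ) ^ q := by
  obtain ⟨q', rfl⟩ : ∃ q', q = q' + 1 := ⟨q - 1, by omega⟩
  have h1 : ∀ a : ℕ, (NA p k ((a : ℤ) + 1) : ℝ) ^ (q' + 1) ≤
      ((k : ℝ) + 1) ^ q' * ∑ o ∈ range (k + 1), (NB p k o ((a : ℤ) + 1) : ℝ) ^ (q' + 1) := by
    intro a
    rw [NA_eq]
    push_cast
    have h2 := pow_sum_div_card_le_sum_pow (s := range (k + 1))
      (f := fun o => (NB p k o ((a : ℤ) + 1) : ℝ)) (fun o _ => Nat.cast_nonneg _) q'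
    rw [card_range, div_le_iff₀ (by positivity)] at h2
    push_cast at h2
    linarith
  unfold MM
  calc ∑ a ∈ range (p ^ k), (NA p k ((a : ℤ) + 1) : ℝ) ^ (q' + 1)
      ≤ ∑ a ∈ range (p ^ k), ((k : ℝ) + 1) ^ q' *
          ∑ o ∈ range (k + 1), (NB p k o ((a : ℤ) + 1) : ℝ) ^ (q' + 1) :=
        sum_le_sum fun a _ => h1 a
    _ = ((k : ℝ) + 1) ^ q' * ∑ o ∈ range (k + 1), ∑ a ∈ range (p ^ k),
          (NB p k o ((a : ℤ) + 1) : ℝ) ^ (q' + 1) := by
        rw [← mul_sum, sum_comm]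
    _ = _ := by
        rw [Nat.add_sub_cancel]
        congr 1
        refine sum_congr rfl fun o ho => ?_
        rw [mem_range] at ho
        symm
        apply sum_subset
        · intro a ha
          rw [mem_range] at ha ⊢
          exact lt_of_lt_of_le ha (Nat.pow_le_pow_right hp.pos (by omega))
        · intro a _ ha
          rw [mem_range, not_lt] at ha
          rw [NB_zero hp ha]
          simp

/-- lower bound for one type -/
theorem MM_ge (hp : Odd p) {q : ℕ} (hq : 1 ≤ q) (k o : ℕ) (ho : o ≤ k) :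
    ((k.choose o : ℕ) : ℝ) ^ q / ((p : ℝ) ^ o) ^ (q - 1) ≤ MM p q k := by
  obtain ⟨q', rfl⟩ : ∃ q', q = q' + 1 := ⟨q - 1, by omega⟩
  rw [Nat.add_sub_cancel]
  have h2 := pow_sum_div_card_le_sum_pow (s := range (p ^ o))
      (f := fun a => (NB p k o ((a : ℤ) + 1) : ℝ)) (fun o _ => Nat.cast_nonneg _) q'
  rw [card_range] at h2
  have h3 : ∑ a ∈ range (p ^ o), (NB p k o ((a : ℤ) + 1) : ℝ) = (k.choose o : ℝ) := by
    exact_mod_cast sum_NB hp k o ho
  rw [h3] at h2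
  push_cast at h2
  refine h2.trans ?_
  unfold MM
  calc ∑ a ∈ range (p ^ o), (NB p k o ((a : ℤ) + 1) : ℝ) ^ (q' + 1)
      ≤ ∑ a ∈ range (p ^ o), (NA p k ((a : ℤ) + 1) : ℝ) ^ (q' + 1) := by
        refine sum_le_sum fun a _ => pow_le_pow_left₀ (Nat.cast_nonneg _) ?_ _
        have : NB p k o ((a : ℤ) + 1) ≤ NA p k ((a : ℤ) + 1) := by
          unfold NB NA
          apply card_le_card
          intro n hn
          rw [mem_filter] at hn ⊢
          exact ⟨hn.1, hn.2.1⟩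
        exact_mod_cast this
    _ ≤ _ := by
        apply sum_le_sum_of_subset_of_nonneg
        · intro a ha
          rw [mem_range] at ha ⊢
          exact lt_of_lt_of_le ha (Nat.pow_le_pow_right hp.pos ho)
        · intro a _ _
          positivity

end Pool.Agent.Y966.CC
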