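import Pool.Agent.Y966.CC.Moment
import Pool.Agent.Y966.LD.Tilt

/-!
The number of the `q`-tuples of integers in `[1, 2^k]` with the same `k`-th iterate.
-/

set_option autoImplicit false
set_option linter.unusedVariables false

namespace Pool.Agent.Y966.CC

open Finset Pool.Agent.H320R2.PD Pool.Agent.H377R2.NK Pool.Agent.Y966.NQ

/-- `p ^ (-(1 - 1/q))` -/
noncomputable def ss (p q : ℕ) : ℝ := (p : ℝ) ^ (-(1 - 1 / (q : ℝ)))

theorem ss_pos {p : ℕ} (hp : 1 ≤ p) (q : ℕ) : 0 < ss p q := by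
  unfold ss
  have : (0 : ℝ) < p := by exact_mod_cast hp
  positivity

theorem ss_pow {p : ℕ} (hp : 1 ≤ p) {q : ℕ} (hq : 1 ≤ q) : ss p q ^ q * (p : ℝ) ^ (q - 1) = 1 := by
  have hp0 : (0 : ℝ) < p := by exact_mod_cast hp
  have hq0 : (q : ℝ) ≠ 0 := by positivity
  unfold ss
  rw [← Real.rpow_natCast ((p : ℝ) ^ (-(1 - 1 / (q : ℝ)))) q, ← Real.rpow_mul hp0.le,
    ← Real.rpow_natCast (p : ℝ) (q - 1), ← Real.rpow_add hp0, Nat.cast_sub hq]
  have : -(1 - 1 / (q : ℝ)) * q + ((q : ℝ) - ((1 : ℕ) : ℝ)) = 0 := by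
    push_cast
    field_simp
    ring
  rw [this, Real.rpow_zero]

/-- the key numerical fact -/
theorem two_le {p q : ℕ} (hp : p = 3 ∨ p = 5) (hq : 2 ≤ q) : 2 ≤ (1 + ss p q) ^ q := by
  have hp1 : 1 ≤ p := by omega
  have hs := ss_pos hp1 q
  have hpow := ss_pow hp1 (show 1 ≤ q by omega)
  have hber : 1 + (q : ℝ) * ss p q ≤ (1 + ss p q) ^ q :=
    one_add_mul_le_pow (by linarith) q
  by_cases h52 : p = 5 ∧ q = 2
  · obtain ⟨rfl, rfl⟩ := h52
    norm_num at hpow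
    nlinarith
  -- if `s q ≥ 1`, done
  by_cases h1 : 1 ≤ (q : ℝ) * ss p q
  · linarith
  push Not at h1
  exfalso
  have hq0 : (0 : ℝ) < q := by positivity
  have h2 : ((q : ℝ) * ss p q) ^ q < 1 := pow_lt_one₀ (by positivity) h1 (by omega)
  rw [mul_pow] at h2
  have h3 : ((q : ℝ)) ^ q * (ss p q ^ q * (p : ℝ) ^ (q - 1)) < (p : ℝ) ^ (q - 1) := by
    rw [← mul_assoc]
    have : (0 : ℝ) < (p : ℝ) ^ (q - 1) := by
      have : (0 : ℝ) < p := by exact_mod_cast hp1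
      positivity
    nlinarith
  rw [hpow, mul_one] at h3
  have h4 : q ^ q < p ^ (q - 1) := by exact_mod_cast h3
  rcases Nat.lt_or_ge q 5 with h5 | h5
  · interval_cases q
    · rcases hp with rfl | rfl
      · norm_num at h4
      · exact h52 ⟨rfl, rfl⟩
    · rcases hp with rfl | rfl <;> norm_num at h4
    · rcases hp with rfl | rfl <;> norm_num at h4
  · have h6 : 5 ^ (q - 1) ≤ q ^ q :=
      (Nat.pow_le_pow_right (by norm_num) (by omega)).trans (Nat.pow_le_pow_left h5 q)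
    have h7 : p ^ (q - 1) ≤ 5 ^ (q - 1) := Nat.pow_le_pow_left (by omega) _
    omega

/-- the critical parameter -/
noncomputable def zs (p q : ℕ) : ℝ := 1 / (1 + ss p q)

theorem zs_zc {p : ℕ} (hp : 1 ≤ p) (q : ℕ) : ZC p (zs p q) := by
  have hs := ss_pos hp q
  refine ⟨hp, by unfold zs; positivity, ?_⟩
  unfold zs
  rw [div_lt_one (by positivity)]
  linarith

theorem th_zs {p : ℕ} (hp : 1 ≤ p) (q : ℕ) : th p (zs p q) = p * ss p q := by
  have hs := ss_pos hp q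
  unfold th zs
  field_simp
  ring

theorem th_pow {p : ℕ} (hp : 1 ≤ p) {q : ℕ} (hq : 1 ≤ q) : th p (zs p q) ^ q = p := by
  rw [th_zs hp, mul_pow]
  have h1 := ss_pow hp hq
  have h2 : (p : ℝ) ^ q = (p : ℝ) ^ (q - 1) * p := by
    rw [← pow_succ]
    congr 1
    omega
  calc (p : ℝ) ^ q * ss p q ^ q = (ss p q ^ q * (p : ℝ) ^ (q - 1)) * p := by rw [h2]; ring
    _ = p := by rw [h1, one_mul]

theorem L1_le {p : ℕ} (hp : p = 3 ∨ p = 5) {q : ℕ} (hq : 2 ≤ q) :
    L1 p (zs p q) q ≤ Real.log p := by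
  have hp1 : 1 ≤ p := by omega
  have hs := ss_pos hp1 q
  have h2 := two_le hp hq
  have hp0 : (0 : ℝ) < p := by exact_mod_cast hp1
  unfold L1
  have hz : 1 - zs p q = ss p q / (1 + ss p q) := by
    unfold zs
    field_simp
    ring
  have e1 : ((p : ℝ) * (1 - zs p q)) ^ q = p / (1 + ss p q) ^ q := by
    have h3 := th_pow hp1 (show 1 ≤ q by omega)
    rw [th_zs hp1] at h3
    rw [hz, ← mul_div_assoc, div_pow, h3]
  have e2 : 1 - zs p q ^ q = ((1 + ss p q) ^ q - 1) / (1 + ss p q) ^ q := by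
    unfold zs
    rw [div_pow, one_pow]
    field_simp
  have h5 : (0 : ℝ) < (1 + ss p q) ^ q := by positivity
  have h6 : (0 : ℝ) < (1 + ss p q) ^ q - 1 := by linarith
  rw [e1, e2]
  apply Real.log_le_log (by positivity)
  rw [div_div_div_cancel_right₀ h5.ne', div_le_iff₀ h6]
  nlinarith

/-- upper bound for the total moment -/
theorem total_upper {p : ℕ} (hp : p = 3 ∨ p = 5) {q : ℕ} (hq : 2 ≤ q) {ε : ℝ} (hε : 0 < ε) :
    ∃ C : ℝ, 0 < C ∧ ∀ k : ℕ, MM p q k ≤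
      ((k : ℝ) + 1) ^ q * (C * Real.exp (ε * k) * (1 + ss p q) ^ (q * k)) := by
  have hp1 : 1 ≤ p := by omega
  haveI : Fact (ZC p (zs p q)) := ⟨zs_zc hp1 q⟩
  have hodd : Odd p := NQ.odd_of hp
  have hs := ss_pos hp1 q
  have hp0 : (0 : ℝ) < p := by exact_mod_cast hp1
  obtain ⟨C, hC, hup⟩ := typed (p := p) (z := zs p q) hp hq hε
  refine ⟨C, hC, fun k => (MM_le hodd (show 1 ≤ q by omega) k).trans ?_⟩
  have hterm : ∀ o ∈ range (k + 1), ∑ a ∈ range (p ^ o), (NB p k o ((a : ℤ) + 1) : ℝ) ^ q ≤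
      C * Real.exp (ε * k) * (1 + ss p q) ^ (q * k) := by
    intro o ho
    rw [mem_range] at ho
    have h1 := hup k o
    rw [max_eq_left (L1_le hp hq), mul_pow, ← pow_mul, mul_comm o q, pow_mul,
      th_pow hp1 (show 1 ≤ q by omega)] at h1
    have e1 : (zs p q ^ k) ^ q = 1 / (1 + ss p q) ^ (q * k) := by
      unfold zs
      rw [← pow_mul, mul_comm k q, div_pow, one_pow]
    rw [e1, add_mul, Real.exp_add, mul_comm (Real.log p) (o : ℝ), Real.exp_nat_mul,
      Real.exp_log hp0] at h1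
    have h2 : (0 : ℝ) < (p : ℝ) ^ o := by positivity
    have h3 : (0 : ℝ) < (1 + ss p q) ^ (q * k) := by positivity
    have h4 : ∑ a ∈ range (p ^ o), (NB p k o ((a : ℤ) + 1) : ℝ) ^ q ≤
        C * Real.exp (ε * o) * (1 + ss p q) ^ (q * k) := by
      have h5 : (p : ℝ) ^ o * (1 / (1 + ss p q) ^ (q * k)) *
          ∑ a ∈ range (p ^ o), (NB p k o ((a : ℤ) + 1) : ℝ) ^ q =
          (p : ℝ) ^ o / (1 + ss p q) ^ (q * k) *
          ∑ a ∈ range (p ^ o), (NB p k o ((a : ℤ) + 1) : ℝ) ^ q := by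
        rw [mul_one_div]
      rw [h5, div_mul_eq_mul_div, div_le_iff₀ h3] at h1
      have h6 : (p : ℝ) ^ o * ∑ a ∈ range (p ^ o), (NB p k o ((a : ℤ) + 1) : ℝ) ^ q ≤
          (p : ℝ) ^ o * (C * Real.exp (ε * o) * (1 + ss p q) ^ (q * k)) := by
        refine h1.trans (le_of_eq ?_)
        ring
      exact le_of_mul_le_mul_left h6 h2
    refine h4.trans ?_
    apply mul_le_mul_of_nonneg_right _ h3.le
    apply mul_le_mul_of_nonneg_left _ hC.le
    apply Real.exp_le_exp.2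
    apply mul_le_mul_of_nonneg_left _ hε.le
    exact_mod_cast (by omega : o ≤ k)
  have hsum := sum_le_sum hterm
  rw [sum_const, card_range, nsmul_eq_mul] at hsum
  push_cast at hsum
  calc ((k : ℝ) + 1) ^ (q - 1) *
        ∑ o ∈ range (k + 1), ∑ a ∈ range (p ^ o), (NB p k o ((a : ℤ) + 1) : ℝ) ^ q
      ≤ ((k : ℝ) + 1) ^ (q - 1) *
          (((k : ℝ) + 1) * (C * Real.exp (ε * k) * (1 + ss p q) ^ (q * k))) :=
        mul_le_mul_of_nonneg_left hsum (by positivity)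
    _ = _ := by
        rw [← mul_assoc, ← pow_succ]
        congr 2
        omega

/-- lower bound for the total moment -/
theorem total_lower {p : ℕ} (hp : Odd p) {q : ℕ} (hq : 1 ≤ q) (k : ℕ) :
    (1 + ss p q) ^ (q * k) ≤ ((k : ℝ) + 1) ^ q * MM p q k := by
  have hp1 : 1 ≤ p := hp.pos
  have hs := ss_pos hp1 q
  have hp0 : (0 : ℝ) < p := by exact_mod_cast hp1
  have hM0 : 0 ≤ MM p q k := by unfold MM; positivity
  -- every term
  have hterm : ∀ o ∈ range (k + 1), ((ss p q ^ o * (k.choose o : ℝ))) ^ q ≤ MM p q k := by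
    intro o ho
    rw [mem_range] at ho
    refine le_trans (le_of_eq ?_) (MM_ge hp hq k o (by omega))
    rw [mul_pow, ← pow_mul, mul_comm o q, pow_mul, eq_div_iff (by positivity)]
    have h1 := ss_pow hp1 hq
    have h2 : (ss p q ^ q) ^ o * ((p : ℝ) ^ o) ^ (q - 1) = 1 := by
      rw [← pow_mul (p : ℝ), mul_comm o (q - 1), pow_mul, ← mul_pow, h1, one_pow]
    calc (ss p q ^ q) ^ o * (k.choose o : ℝ) ^ q * ((p : ℝ) ^ o) ^ (q - 1)
        = ((ss p q ^ q) ^ o * ((p : ℝ) ^ o) ^ (q - 1)) * (k.choose o : ℝ) ^ q := by ring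
      _ = _ := by rw [h2, one_mul]
  have hbin : (1 + ss p q) ^ k = ∑ o ∈ range (k + 1), ss p q ^ o * (k.choose o : ℝ) := by
    rw [add_comm, add_pow]
    refine sum_congr rfl fun o _ => ?_
    rw [one_pow, mul_one]
  obtain ⟨q', rfl⟩ : ∃ q', q = q' + 1 := ⟨q - 1, by omega⟩
  have h2 := pow_sum_div_card_le_sum_pow (s := range (k + 1))
      (f := fun o => ss p (q' + 1) ^ o * (k.choose o : ℝ)) (fun o _ => by positivity) q'
  rw [← hbin, card_range, div_le_iff₀ (by positivity), ← pow_mul, mul_comm k] at h2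
  push_cast at h2
  have h3 : ∑ o ∈ range (k + 1), (ss p (q' + 1) ^ o * (k.choose o : ℝ)) ^ (q' + 1) ≤
      ((k : ℝ) + 1) * MM p (q' + 1) k := by
    have := sum_le_sum hterm
    rw [sum_const, card_range, nsmul_eq_mul] at this
    push_cast at this
    exact this
  calc (1 + ss p (q' + 1)) ^ ((q' + 1) * k)
      ≤ (∑ o ∈ range (k + 1), (ss p (q' + 1) ^ o * (k.choose o : ℝ)) ^ (q' + 1)) *
          ((k : ℝ) + 1) ^ q' := h2
    _ ≤ (((k : ℝ) + 1) * MM p (q' + 1) k) * ((k : ℝ) + 1) ^ q' :=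
        mul_le_mul_of_nonneg_right h3 (by positivity)
    _ = _ := by ring

/-- the growth rate of the total moment -/
theorem total {p : ℕ} (hp : p = 3 ∨ p = 5) {q : ℕ} (hq : 2 ≤ q) {ε : ℝ} (hε : 0 < ε) :
    ∃ k₀ : ℕ, ∀ k : ℕ, k₀ ≤ k →
      Real.exp (-(ε * k)) * (1 + ss p q) ^ (q * k) ≤ MM p q k ∧
      MM p q k ≤ Real.exp (ε * k) * (1 + ss p q) ^ (q * k) := by
  have hp1 : 1 ≤ p := by omega
  have hodd : Odd p := NQ.odd_of hp
  have hs := ss_pos hp1 q
  obtain ⟨C, hC, hup⟩ := total_upper hp hq (show 0 < ε / 2 by positivity)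
  have hq0 : (0 : ℝ) < q := by positivity
  obtain ⟨K', hK'0, hK'⟩ := Pool.Agent.Y966.LD.log_lin (show 0 < ε / (4 * q) by positivity)
  obtain ⟨k₀, hk₀⟩ := exists_nat_ge (4 * (q * K' + |Real.log C|) / ε)
  refine ⟨k₀, fun k hk => ?_⟩
  have hk' : 4 * (q * K' + |Real.log C|) / ε ≤ k := hk₀.trans (by exact_mod_cast hk)
  rw [div_le_iff₀ hε] at hk'
  have hkn : (0 : ℝ) ≤ k := Nat.cast_nonneg k
  have hk1 : (0 : ℝ) < (k : ℝ) + 1 := by positivity
  have hlog := hK' k hkn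
  have h1 : (q : ℝ) * Real.log ((k : ℝ) + 1) ≤ ε / 4 * k + q * K' := by
    have h2 := mul_le_mul_of_nonneg_left hlog hq0.le
    have h3 : (q : ℝ) * (ε / (4 * q) * k + K') = ε / 4 * k + q * K' := by
      field_simp
    linarith
  have h4 := le_abs_self (Real.log C)
  have h5 := abs_nonneg (Real.log C)
  have hpow : ((k : ℝ) + 1) ^ q = Real.exp (q * Real.log ((k : ℝ) + 1)) := by
    rw [Real.exp_nat_mul, Real.exp_log hk1]
  have hB : (0 : ℝ) < (1 + ss p q) ^ (q * k) := by positivity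
  constructor
  · have h6 := total_lower hodd (show 1 ≤ q by omega) k
    have h7 : Real.exp (-(ε * k)) * ((k : ℝ) + 1) ^ q ≤ 1 := by
      rw [hpow, ← Real.exp_add]
      apply Real.exp_le_one_iff.2
      nlinarith
    have hM0 : 0 ≤ MM p q k := by unfold MM; positivity
    calc Real.exp (-(ε * k)) * (1 + ss p q) ^ (q * k)
        ≤ Real.exp (-(ε * k)) * (((k : ℝ) + 1) ^ q * MM p q k) :=
          mul_le_mul_of_nonneg_left h6 (Real.exp_pos _).le
      _ = (Real.exp (-(ε * k)) * ((k : ℝ) + 1) ^ q) * MM p q k := by ring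
      _ ≤ 1 * MM p q k := mul_le_mul_of_nonneg_right h7 hM0
      _ = _ := one_mul _
  · refine (hup k).trans ?_
    have h7 : ((k : ℝ) + 1) ^ q * (C * Real.exp (ε / 2 * k)) ≤ Real.exp (ε * k) := by
      have e : C = Real.exp (Real.log C) := (Real.exp_log hC).symm
      rw [hpow, e, ← Real.exp_add, ← Real.exp_add]
      apply Real.exp_le_exp.2
      nlinarith
    calc ((k : ℝ) + 1) ^ q * (C * Real.exp (ε / 2 * k) * (1 + ss p q) ^ (q * k))
        = (((k : ℝ) + 1) ^ q * (C * Real.exp (ε / 2 * k))) * (1 + ss p q) ^ (q * k) := by ring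
      _ ≤ _ := mul_le_mul_of_nonneg_right h7 hB.le

end Pool.Agent.Y966.CC
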