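import Pool.Agent.Y966.CC.Basic

/-!
Upper bounds for the moments of the numbers of preimages of `T_p^k` in `[1, 2^k]`.
-/

set_option autoImplicit false
set_option linter.unusedVariables false

namespace Pool.Agent.Y966.CC

open Finset Pool.Agent.H320R2.PD Pool.Agent.H377R2.NK

variable {p : ℕ}

/-- the words of length `o` and size at most `k` valid at `a` -/
noncomputable def WO (p k o : ℕ) (a : ℤ) : Finset (List ℕ) :=
  (C1_WF p k a).filter fun w => w.length = o

theorem mem_WO {k o : ℕ} {a : ℤ} {w : List ℕ} : w ∈ WO p k o a ↔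
    w ∈ C1_WF p k a ∧ w.length = o := by
  unfold WO
  rw [mem_filter]

theorem inc_length (w : List ℕ) : (C1_inc w).length = w.length := by
  cases w <;> simp [C1_inc]

theorem inc_WO {k o : ℕ} {a : ℤ} {w : List ℕ} (hw : w ∈ WO p k o (2 * a)) :
    C1_inc w ∈ WO p (k + 1) o a := by
  rw [mem_WO] at hw ⊢
  exact ⟨C1_inc_mem hw.1, by rw [inc_length, hw.2]⟩

theorem cons_WO {k o : ℕ} {a b : ℤ} (hb : (p : ℤ) * b = 2 * a - 1) {w : List ℕ}
    (hw : w ∈ WO p k o b) : (1 :: w) ∈ WO p (k + 1) (o + 1) a := by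
  rw [mem_WO] at hw ⊢
  exact ⟨C1_cons_mem (by exact_mod_cast hb) hw.1, by simp [hw.2]⟩

theorem card_WO_inc (k o : ℕ) (a : ℤ) : (WO p k o (2 * a)).card ≤ (WO p (k + 1) o a).card := by
  classical
  rw [← card_image_of_injective _ C1_inc_inj]
  refine card_le_card ?_
  intro w hw
  rw [mem_image] at hw
  obtain ⟨u, hu, rfl⟩ := hw
  exact inc_WO hu

theorem card_WO_both (k o : ℕ) (a b : ℤ) (hb : (p : ℤ) * b = 2 * a - 1) :
    (WO p k (o + 1) (2 * a)).card + (WO p k o b).card ≤ (WO p (k + 1) (o + 1) a).card := by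
  classical
  rw [← card_image_of_injective _ C1_inc_inj,
    ← card_image_of_injective (WO p k o b) (f := List.cons 1) (fun u v h => (List.cons.inj h).2),
    ← card_union_of_disjoint]
  · refine card_le_card ?_
    intro w hw
    rw [mem_union, mem_image, mem_image] at hw
    rcases hw with ⟨u, hu, rfl⟩ | ⟨u, hu, rfl⟩
    · exact inc_WO hu
    · exact cons_WO hb hu
  · refine disjoint_left.mpr fun w hw hw' => ?_
    rw [mem_image] at hw hw'
    obtain ⟨u, hu, rfl⟩ := hw
    obtain ⟨v, hv, h⟩ := hw'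
    cases u with
    | nil => simp [C1_inc] at h
    | cons e u =>
      simp only [C1_inc, List.cons.injEq] at h
      have := (C1_mem.mp (mem_WO.1 hu).1).1 e (by simp)
      omega

theorem ncard_le_WO (hp : Odd p) (k : ℕ) : ∀ (o : ℕ) (a : ℤ),
    {n : ℤ | (TP p)^[k] n = a ∧ oP p k n = o}.Finite ∧
    {n : ℤ | (TP p)^[k] n = a ∧ oP p k n = o}.ncard ≤ (WO p k o a).card := by
  have hpz : (0 : ℤ) < p := by exact_mod_cast hp.pos
  induction k with
  | zero =>
    intro o a
    rcases Nat.eq_zero_or_pos o with rfl | ho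
    · have : {n : ℤ | (TP p)^[0] n = a ∧ oP p 0 n = 0} = {a} := by
        ext n; simp [oP_zero]
      rw [this]
      refine ⟨Set.finite_singleton a, ?_⟩
      rw [Set.ncard_singleton, Nat.one_le_iff_ne_zero, card_ne_zero]
      exact ⟨[], mem_WO.2 ⟨C1_mem.mpr (by simp), rfl⟩⟩
    · have : {n : ℤ | (TP p)^[0] n = a ∧ oP p 0 n = o} = ∅ := by
        ext n
        simp only [oP_zero, Set.mem_setOf_eq, Set.mem_empty_iff_false, iff_false]
        omega
      rw [this]
      exact ⟨Set.finite_empty, by simp⟩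
  | succ k ih =>
    intro o a
    have hTa : ∀ m : ℤ, TP p m = a → (m = 2 * a ∧ ¬ m % 2 = 1) ∨
        ((p : ℤ) * m = 2 * a - 1 ∧ m % 2 = 1) ∨ ((p : ℤ) * m = 2 * a ∧ m % 2 = 1) := by
      intro m hm
      unfold TP at hm
      split_ifs at hm with h
      · left; omega
      · right
        have : (p : ℤ) * m + 1 = 2 * a ∨ (p : ℤ) * m + 1 = 2 * a + 1 := by omega
        omega
    have hTa : ∀ m : ℤ, TP p m = a → (m = 2 * a ∧ ¬ m % 2 = 1) ∨
        ((p : ℤ) * m = 2 * a - 1 ∧ m % 2 = 1) := by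
      intro m hm
      rcases hTa m hm with h | h | ⟨h1, h2⟩
      · exact Or.inl h
      · exact Or.inr h
      · exfalso
        obtain ⟨r, hr⟩ := hp
        have hpz' : (p : ℤ) = 2 * r + 1 := by exact_mod_cast hr
        obtain ⟨c, hc⟩ : ∃ c : ℤ, m = 2 * c + 1 := ⟨m / 2, by omega⟩
        have : (p : ℤ) * m = 2 * ((p : ℤ) * c + r) + 1 := by
          rw [hc, hpz']
          ring
        omega
    have h0 : {n : ℤ | (TP p)^[k + 1] n = a ∧ oP p (k + 1) n = o} ⊆
        {n | (TP p)^[k] n = 2 * a ∧ oP p k n = o} ∪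
        {n | (p : ℤ) * (TP p)^[k] n = 2 * a - 1 ∧ oP p k n + 1 = o} := by
      rintro n ⟨hn1, hn2⟩
      rw [Function.iterate_succ_apply'] at hn1
      rw [oP_succ] at hn2
      rcases hTa _ hn1 with ⟨h1, h2⟩ | ⟨h1, h2⟩
      · left
        rw [if_neg h2] at hn2
        exact ⟨h1, by omega⟩
      · right
        rw [if_pos h2] at hn2
        exact ⟨h1, by omega⟩
    by_cases hdiv : ∃ (b : ℤ) (o' : ℕ), (p : ℤ) * b = 2 * a - 1 ∧ o = o' + 1
    · obtain ⟨b, o', hb, rfl⟩ := hdiv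
      have hsub : {n : ℤ | (TP p)^[k + 1] n = a ∧ oP p (k + 1) n = o' + 1} ⊆
          {n | (TP p)^[k] n = 2 * a ∧ oP p k n = o' + 1} ∪ {n | (TP p)^[k] n = b ∧ oP p k n = o'} := by
        intro n hn
        rcases h0 hn with h | ⟨h1, h2⟩
        · exact Or.inl h
        · right
          refine ⟨?_, by omega⟩
          rw [← hb] at h1
          exact mul_left_cancel₀ hpz.ne' h1
      obtain ⟨f1, c1⟩ := ih (o' + 1) (2 * a)
      obtain ⟨f2, c2⟩ := ih o' b
      refine ⟨(f1.union f2).subset hsub, ?_⟩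
      calc {n : ℤ | (TP p)^[k + 1] n = a ∧ oP p (k + 1) n = o' + 1}.ncard ≤
            ({n | (TP p)^[k] n = 2 * a ∧ oP p k n = o' + 1} ∪ {n | (TP p)^[k] n = b ∧ oP p k n = o'}).ncard :=
            Set.ncard_le_ncard hsub (f1.union f2)
        _ ≤ _ := Set.ncard_union_le _ _
        _ ≤ (WO p k (o' + 1) (2 * a)).card + (WO p k o' b).card := Nat.add_le_add c1 c2
        _ ≤ (WO p (k + 1) (o' + 1) a).card := card_WO_both k o' a b hb
    · have hsub : {n : ℤ | (TP p)^[k + 1] n = a ∧ oP p (k + 1) n = o} ⊆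
          {n | (TP p)^[k] n = 2 * a ∧ oP p k n = o} := by
        intro n hn
        rcases h0 hn with h | ⟨h1, h2⟩
        · exact h
        · exact absurd ⟨(TP p)^[k] n, oP p k n, h1, h2.symm⟩ hdiv
      obtain ⟨f1, c1⟩ := ih o (2 * a)
      refine ⟨f1.subset hsub, ?_⟩
      calc {n : ℤ | (TP p)^[k + 1] n = a ∧ oP p (k + 1) n = o}.ncard
          ≤ {n | (TP p)^[k] n = 2 * a ∧ oP p k n = o}.ncard := Set.ncard_le_ncard hsub f1
        _ ≤ (WO p k o (2 * a)).card := c1
        _ ≤ (WO p (k + 1) o a).card := card_WO_inc k o a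

end Pool.Agent.Y966.CC
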